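import Pool.Agent.X175.SubN.D

set_option autoImplicit false

/-! # The conjecture on character values at elements of mixed order is false

`G = D₁₂ ≀ C₂` (order 288), `x = (s, t)` with `s` a reflection and `t` a rotation of order three.
For the two prime-power parts `x₂ = (s, 1)` and `x₃ = (1, t)` the subnormalizer is all of `G`, so
property (SS) holds for them. But `Sub_G(x) = C(s) × D₁₂` (order 48), all of whose irreducible
characters `ψ` satisfy `ψ(x)² ≠ 4`, while `G` has an irreducible character `χ` of degree two, lifted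
from `G/(S₃ × S₃) ≅ D₈`, with `χ(x) = 2`. -/

namespace Pool.Agent.Results.MP_3a6623_al.CounterexampleOrder288

open Pool.Agent.X175.SubN

/-- There are a finite group `G`, of order 288, and an element `x` of order 6 of `G` such that
`(G, x_p)` has property (SS) for every prime `p` dividing `o(x)`, but no bijection
`f : Irr^x(G) → Irr^x(Sub_G(x))` satisfies `χ(x) = ± f(χ)(x)` for all `χ`. -/
theorem result : ∃ (G : Type) (_ : Group G) (_ : Finite G) (x : G),
    Nat.card G = 288 ∧ orderOf x = 6 ∧
    (∀ p : ℕ, p.Prime → p ∣ orderOf x →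
      (∃ y : G, IsPPart p x y) ∧ ∀ y : G, IsPPart p x y → SS p y) ∧
    ¬ ∃ f : IrrAt x ≃ IrrAt (self x), ∀ χ : IrrAt x,
      (χ.1 x = (f χ).1 (self x) ∨ χ.1 x = - (f χ).1 (self x)) :=
  ⟨W, inferInstance, inferInstance, xW, by rw [Nat.card_eq_fintype_card, card_W], order_x,
    fun p hp hd => ⟨exists_ppart hp hd, hyp p hp hd⟩, fun ⟨f, hf⟩ => main f hf⟩

end Pool.Agent.Results.MP_3a6623_al.CounterexampleOrder288
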